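import Pool.Agent.Helper6.SW.Defs

/-! Upper bounds for Dirichlet L-functions near the line `Re s = 1` (modules SW-2a, SW-2b, SW-2c).
-/

namespace Pool.Agent.Helper4.SW

open Finset DirichletCharacter Pool.Agent.Helper6.ER Pool.Agent.Helper6.SW

theorem one_le_ell (N : ℕ) [NeZero N] (t : ℝ) : (1.09 : ℝ) ≤ ell N t := by
  have hN : (1 : ℝ) ≤ N := by exact_mod_cast NeZero.one_le
  have h3 : (3 : ℝ) ≤ N * (|t| + 3) := by nlinarith [abs_nonneg t]
  have h1 : Real.log 3 ≤ ell N t := Real.log_le_log (by norm_num) h3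
  have h2 : (1.09 : ℝ) ≤ Real.log 3 := by
    have : Real.exp (1.09 : ℝ) ≤ 3 := by
      have he : Real.exp (1.09 : ℝ) = Real.exp 1 * Real.exp (0.09 : ℝ) := by
        rw [← Real.exp_add]; norm_num
      have h5 : Real.exp 1 < 2.7182818286 := Real.exp_one_lt_d9
      have h6 : Real.exp (0.09 : ℝ) ≤ 1.1 := by
        have h7 := Real.add_one_le_exp (-(0.09 : ℝ))
        have h8 : Real.exp (0.09 : ℝ) * Real.exp (-(0.09 : ℝ)) = 1 := by
          rw [← Real.exp_add]; norm_num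
        have h9 : (0 : ℝ) < Real.exp (0.09 : ℝ) := Real.exp_pos _
        nlinarith
      rw [he]
      have h10 : (0 : ℝ) < Real.exp (0.09 : ℝ) := Real.exp_pos _
      nlinarith
    exact (Real.le_log_iff_exp_le (by norm_num)).2 this
  linarith

theorem ell_pos (N : ℕ) [NeZero N] (t : ℝ) : 0 < ell N t := by
  have := one_le_ell N t
  linarith

theorem norm_term_le {N : ℕ} (χ : DirichletCharacter ℂ N) (s : ℂ) {n : ℕ} (hn : 1 ≤ n) :
    ‖χ (n : ZMod N) * (n : ℂ) ^ (-s)‖ ≤ (n : ℝ) ^ (-s.re) := by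
  rw [norm_mul, Complex.norm_natCast_cpow_of_pos (by omega)]
  have h1 : ‖χ (n : ZMod N)‖ ≤ 1 := χ.norm_le_one _
  have h2 : (0 : ℝ) ≤ (n : ℝ) ^ (-s).re := by positivity
  calc ‖χ (n : ZMod N)‖ * (n : ℝ) ^ (-s).re ≤ 1 * (n : ℝ) ^ (-s).re := by gcongr
    _ = (n : ℝ) ^ (-s.re) := by simp

/-- SW-2a -/
theorem stUpper_of (h : StPartial) : StUpper := by
  refine ⟨28 * Real.exp 2, by positivity, ?_⟩
  intro N _ χ hχ s hs1 hs3
  have hN : (1 : ℝ) ≤ N := by exact_mod_cast NeZero.one_le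
  have hN' : 1 ≤ N := NeZero.one_le
  have hl := one_le_ell N s.im
  set l := ell N s.im with hldef
  have hl0 : 0 < l := by linarith
  have hσ : (0.08 : ℝ) ≤ s.re := by
    have : 1 / l ≤ 1 / 1.09 := by gcongr
    have h2 : (1 : ℝ) / 1.09 ≤ 0.92 := by norm_num
    linarith
  have hσ0 : 0 < s.re := by linarith
  set K : ℕ := N * ⌈|s.im| + 3⌉₊ with hK
  have ht := abs_nonneg s.im
  have hc1 : |s.im| + 3 ≤ (⌈|s.im| + 3⌉₊ : ℝ) := Nat.le_ceil _
  have hc2 : (⌈|s.im| + 3⌉₊ : ℝ) < |s.im| + 3 + 1 := Nat.ceil_lt_add_one (by linarith)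
  have hKr : (K : ℝ) = N * (⌈|s.im| + 3⌉₊ : ℝ) := by rw [hK]; push_cast; rfl
  have hK1 : (N : ℝ) * (|s.im| + 3) ≤ K := by rw [hKr]; gcongr
  have hK2 : (K : ℝ) ≤ (N * (|s.im| + 3)) * 2 := by
    rw [hKr]
    have : (⌈|s.im| + 3⌉₊ : ℝ) ≤ (|s.im| + 3) * 2 := by linarith
    calc (N : ℝ) * (⌈|s.im| + 3⌉₊ : ℝ) ≤ N * ((|s.im| + 3) * 2) := by gcongr
      _ = (N * (|s.im| + 3)) * 2 := by ring
  have hK3 : (3 : ℝ) ≤ K := by nlinarith
  have hK0 : (0 : ℝ) < K := by linarith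
  have hK1' : 1 ≤ K := by
    have : (1 : ℝ) ≤ K := by linarith
    exact_mod_cast this
  have hlogK : Real.log K ≤ 2 * l := by
    have h1 : Real.log K ≤ Real.log ((N * (|s.im| + 3)) * 2) := Real.log_le_log hK0 hK2
    rw [Real.log_mul (by positivity) (by norm_num)] at h1
    have h2 : Real.log 2 < 0.6931471808 := Real.log_two_lt_d9
    have h3 : Real.log (N * (|s.im| + 3)) = l := rfl
    rw [h3] at h1
    linarith
  have hlogK0 : 0 ≤ Real.log K := Real.log_nonneg (by linarith)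
  have hpow : ∀ n : ℕ, 1 ≤ n → n ≤ K → (n : ℝ) ^ (-s.re) ≤ Real.exp 2 * (n : ℝ)⁻¹ := by
    intro n hn hnK
    have hn0 : (0 : ℝ) < n := by exact_mod_cast hn
    have h1 : (n : ℝ) ^ (-s.re) = (n : ℝ) ^ (1 - s.re) * (n : ℝ)⁻¹ := by
      rw [show -s.re = (1 - s.re) + (-1) by ring, Real.rpow_add hn0, Real.rpow_neg_one]
    rw [h1]
    gcongr
    rw [Real.rpow_def_of_pos hn0]
    apply Real.exp_le_exp.2
    have h2 : 0 ≤ Real.log n := Real.log_nonneg (by exact_mod_cast hn)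
    have h3 : Real.log n ≤ Real.log K := Real.log_le_log hn0 (by exact_mod_cast hnK)
    calc Real.log n * (1 - s.re) ≤ Real.log n * (1 / l) := by gcongr; linarith
      _ ≤ (2 * l) * (1 / l) := by gcongr; linarith
      _ = 2 := by field_simp
  have hsum : ‖∑ n ∈ Icc 1 K, χ (n : ZMod N) * (n : ℂ) ^ (-s)‖ ≤ 3 * Real.exp 2 * l := by
    calc ‖∑ n ∈ Icc 1 K, χ (n : ZMod N) * (n : ℂ) ^ (-s)‖
        ≤ ∑ n ∈ Icc 1 K, Real.exp 2 * (n : ℝ)⁻¹ := by
          refine norm_sum_le_of_le _ fun n hn => ?_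
          rw [Finset.mem_Icc] at hn
          exact (norm_term_le χ s hn.1).trans (hpow n hn.1 hn.2)
      _ = Real.exp 2 * ∑ n ∈ Icc 1 K, (n : ℝ)⁻¹ := by rw [Finset.mul_sum]
      _ ≤ Real.exp 2 * (1 + Real.log K) := by
          gcongr
          have := harmonic_le_one_add_log K
          rw [harmonic_eq_sum_Icc] at this
          push_cast at this
          exact this
      _ ≤ Real.exp 2 * (3 * l) := by gcongr; linarith
      _ = 3 * Real.exp 2 * l := by ring
  have htail := h N χ hχ s hσ0 K hK1'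
  have htail2 : 2 * N * ‖s‖ * (K : ℝ) ^ (-s.re) / s.re ≤ 25 * Real.exp 2 * l := by
    have h1 := hpow K hK1' le_rfl
    have h2 : ‖s‖ ≤ |s.im| + 3 := by
      have h3 := Complex.norm_le_abs_re_add_abs_im s
      have h4 : |s.re| ≤ 3 := by rw [abs_of_pos hσ0]; exact hs3
      linarith
    have h3 : (N : ℝ) * ‖s‖ ≤ K := le_trans (by gcongr) hK1
    rw [div_le_iff₀ hσ0]
    calc 2 * N * ‖s‖ * (K : ℝ) ^ (-s.re) ≤ 2 * N * ‖s‖ * (Real.exp 2 * (K : ℝ)⁻¹) := by gcongr
      _ = 2 * Real.exp 2 * ((N * ‖s‖) * (K : ℝ)⁻¹) := by ring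
      _ ≤ 2 * Real.exp 2 * (K * (K : ℝ)⁻¹) := by gcongr
      _ = 2 * Real.exp 2 := by rw [mul_inv_cancel₀ hK0.ne', mul_one]
      _ ≤ 25 * Real.exp 2 * 1 * 0.08 := by
          have := Real.exp_pos (2 : ℝ)
          linarith
      _ ≤ 25 * Real.exp 2 * l * s.re := by
          have h5 := Real.exp_pos (2 : ℝ)
          gcongr
          linarith
  calc ‖LFunction χ s‖ = ‖(LFunction χ s - ∑ n ∈ Icc 1 K, χ (n : ZMod N) * (n : ℂ) ^ (-s)) +
        ∑ n ∈ Icc 1 K, χ (n : ZMod N) * (n : ℂ) ^ (-s)‖ := by ring_nf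
    _ ≤ 25 * Real.exp 2 * l + 3 * Real.exp 2 * l :=
        (norm_add_le _ _).trans (add_le_add (htail.trans htail2) hsum)
    _ = 28 * Real.exp 2 * l := by ring

theorem ell_le_of_near (N : ℕ) [NeZero N] {t t' : ℝ} (h : |t' - t| ≤ 1 / 3) :
    ell N t' ≤ 10 / 9 * ell N t := by
  have hN : (1 : ℝ) ≤ N := by exact_mod_cast NeZero.one_le
  have ht := abs_nonneg t
  have ht' := abs_nonneg t'
  have h1 : |t'| ≤ |t| + 1 / 3 := by
    have := abs_sub_abs_le_abs_sub t' t
    linarith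
  have h2 : (N : ℝ) * (|t'| + 3) ≤ (N * (|t| + 3)) * (1 + 1 / 9) := by
    have : |t'| + 3 ≤ (|t| + 3) * (1 + 1 / 9) := by linarith
    calc (N : ℝ) * (|t'| + 3) ≤ N * ((|t| + 3) * (1 + 1 / 9)) := by gcongr
      _ = _ := by ring
  have h3 : ell N t' ≤ ell N t + Real.log (1 + 1 / 9) := by
    have h4 := Real.log_le_log (by positivity) h2
    have h5 : Real.log ((N * (|t| + 3)) * (1 + 1 / 9)) =
        Real.log (N * (|t| + 3)) + Real.log (1 + 1 / 9) :=
      Real.log_mul (by positivity) (by norm_num)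
    rw [h5] at h4
    exact h4
  have h5 : Real.log (1 + 1 / 9) ≤ 1 / 9 := by
    have := Real.log_le_sub_one_of_pos (show (0 : ℝ) < 1 + 1 / 9 by norm_num)
    linarith
  have h6 := one_le_ell N t
  linarith

/-- SW-2b -/
theorem stDeriv_of (h : StPartial) : StDeriv := by
  obtain ⟨C, hC, hU⟩ := stUpper_of h
  refine ⟨10 / 3 * C, by positivity, ?_⟩
  intro N _ χ hχ s hs1 hs2
  have hl := one_le_ell N s.im
  set l := ell N s.im with hldef
  have hl0 : 0 < l := by linarith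
  set r : ℝ := 1 / (3 * l) with hr
  have hr0 : 0 < r := by positivity
  have hr1 : r ≤ 1 / 3 := by
    rw [hr]
    apply one_div_le_one_div_of_le (by norm_num)
    linarith
  have key : ∀ z ∈ Metric.sphere s r, ‖LFunction χ z‖ ≤ C * (10 / 9 * l) := by
    intro z hz
    rw [mem_sphere_iff_norm] at hz
    have him : |z.im - s.im| ≤ r := by
      have := Complex.abs_im_le_norm (z - s)
      rwa [hz, Complex.sub_im] at this
    have hre : |z.re - s.re| ≤ r := by
      have := Complex.abs_re_le_norm (z - s)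
      rwa [hz, Complex.sub_re] at this
    have hlz : ell N z.im ≤ 10 / 9 * l := ell_le_of_near N (him.trans hr1)
    have hlz0 := ell_pos N z.im
    have h1 : 1 - 1 / ell N z.im ≤ z.re := by
      have h2 : 1 / (10 / 9 * l) ≤ 1 / ell N z.im := one_div_le_one_div_of_le hlz0 hlz
      have h3 : 1 / (10 / 9 * l) = 27 / 10 * r := by rw [hr]; field_simp; norm_num
      have h4 := (abs_le.1 hre).1
      have h5 : 1 - r ≤ s.re := hs1
      linarith
    have h2 : z.re ≤ 3 := by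
      have h4 := (abs_le.1 hre).2
      linarith
    exact (hU N χ hχ z h1 h2).trans (by gcongr)
  have hd : DifferentiableOn ℂ (LFunction χ) (Metric.closedBall s r) :=
    (differentiable_LFunction hχ).differentiableOn
  have h1 := Complex.norm_deriv_le_of_forall_mem_sphere_norm_le hr0
    ((differentiable_LFunction hχ).diffContOnCl) key
  refine h1.trans (le_of_eq ?_)
  rw [hr]
  field_simp
  ring

/-- SW-2c -/
theorem stCoarse_of (h : StPartial) : StCoarse := by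
  refine ⟨17, by norm_num, ?_⟩
  intro N _ χ hχ s hs1 hs2
  have hN : (1 : ℝ) ≤ N := by exact_mod_cast NeZero.one_le
  have h0 : 0 < s.re := by linarith
  have h1 := h N χ hχ s h0 1 le_rfl
  simp only [Finset.Icc_self, Finset.sum_singleton, Nat.cast_one, map_one, Complex.one_cpow,
    mul_one, Real.one_rpow] at h1
  have h2 : 2 * N * ‖s‖ / s.re ≤ 16 * N := by
    rw [div_le_iff₀ h0]
    nlinarith [norm_nonneg s]
  calc ‖LFunction χ s‖ = ‖(LFunction χ s - 1) + 1‖ := by ring_nf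
    _ ≤ 16 * N + 1 := (norm_add_le _ _).trans (add_le_add (h1.trans h2) (by simp))
    _ ≤ 17 * N := by linarith

end Pool.Agent.Helper4.SW
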